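import Pool.Agent.ISO.StmtsR

/-!
# Squad ISO, block R, row VEC: the vector fields in the coordinates (MP_b48657_ag)
-/

set_option autoImplicit false

namespace Pool.Agent.ISO.R.H69

open Finset Pool.Agent.Helper6_Mono Pool.Agent.Helper32_OMP Pool.Agent.ISO Pool.Agent.ISO.R

/-- chain rule -/
theorem chain_rule {σ : Type} [Fintype σ] (φ : σ → MvPowerSeries σ ℂ) (j : σ)
    (q : MvPolynomial σ ℂ) :
    MvPowerSeries.pderiv ℂ j (MvPolynomial.aeval φ q) =
      ∑ l, MvPolynomial.aeval φ (MvPolynomial.pderiv l q) * MvPowerSeries.pderiv ℂ j (φ l) := by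
  classical
  induction q using MvPolynomial.induction_on with
  | C a =>
    rw [MvPolynomial.aeval_C]
    have h0 : MvPowerSeries.pderiv ℂ j (algebraMap ℂ (MvPowerSeries σ ℂ) a) = 0 :=
      Derivation.map_algebraMap _ _
    rw [h0]
    symm
    apply Finset.sum_eq_zero
    intro l _
    rw [MvPolynomial.pderiv_C, map_zero, zero_mul]
  | add p q hp hq =>
    rw [map_add, map_add, hp, hq, ← Finset.sum_add_distrib]
    apply Finset.sum_congr rfl
    intro l _
    rw [map_add, map_add, add_mul]
  | mul_X q l hq =>
    rw [map_mul, MvPolynomial.aeval_X, Derivation.leibniz, hq, smul_eq_mul, smul_eq_mul]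
    have h1 : ∀ m : σ, MvPolynomial.aeval φ (MvPolynomial.pderiv m (q * MvPolynomial.X l)) *
        MvPowerSeries.pderiv ℂ j (φ m) =
        (if m = l then MvPolynomial.aeval φ q * MvPowerSeries.pderiv ℂ j (φ m) else 0) +
          φ l * (MvPolynomial.aeval φ (MvPolynomial.pderiv m q) *
            MvPowerSeries.pderiv ℂ j (φ m)) := by
      intro m
      rw [Derivation.leibniz, MvPolynomial.pderiv_X, smul_eq_mul, smul_eq_mul]
      by_cases hm : m = l
      · subst hm
        rw [Pi.single_eq_same, if_pos rfl, mul_one, map_add, map_mul, MvPolynomial.aeval_X]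
        ring
      · rw [Pi.single_eq_of_ne (fun h => hm h.symm), if_neg hm, mul_zero, zero_add, zero_add,
          map_mul, MvPolynomial.aeval_X]
        ring
    rw [Finset.sum_congr rfl (fun m _ => h1 m), Finset.sum_add_distrib, ← Finset.mul_sum,
      Finset.sum_ite_eq' Finset.univ l, if_pos (Finset.mem_univ l)]

theorem vec : VecStmt := by
  classical
  intro σ _ p φ hco
  let J : Matrix σ σ (MvPowerSeries σ ℂ) := fun l j => MvPowerSeries.pderiv ℂ j (φ l)
  have hcc : ∀ l j, MvPowerSeries.constantCoeff (J l j) =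
      MvPowerSeries.coeff (Finsupp.single j 1) (φ l) := by
    intro l j
    have h1 := MvPowerSeries.coeff_pderiv (i := j) (φ l) 0
    rw [MvPowerSeries.coeff_zero_eq_constantCoeff] at h1
    show MvPowerSeries.constantCoeff (MvPowerSeries.pderiv ℂ j (φ l)) = _
    rw [h1, zero_add]
    simp
  have hM : IsUnit (Matrix.of (fun l j : σ =>
      MvPowerSeries.coeff (Finsupp.single j 1) (φ l))) := by
    rw [← Matrix.linearIndependent_rows_iff_isUnit]
    exact hco.li
  have hdet : IsUnit J.det := by
    rw [MvPowerSeries.isUnit_iff_constantCoeff]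
    have h2 : MvPowerSeries.constantCoeff J.det =
        (Matrix.of (fun l j : σ => MvPowerSeries.coeff (Finsupp.single j 1) (φ l))).det := by
      rw [RingHom.map_det]
      congr 1
      ext l j
      exact hcc l j
    rw [h2]
    exact (Matrix.isUnit_iff_isUnit_det _).1 hM
  refine ⟨fun i j => J⁻¹ j i, ?_⟩
  intro i q
  have hJJ : ∀ l : σ, ∑ j, J⁻¹ j i * J l j = if l = i then 1 else 0 := by
    intro l
    have h3 : (J * J⁻¹) l i = (1 : Matrix σ σ (MvPowerSeries σ ℂ)) l i := by
      rw [Matrix.mul_nonsing_inv J hdet]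
    rw [Matrix.mul_apply, Matrix.one_apply] at h3
    rw [← h3]
    apply Finset.sum_congr rfl
    intro j _
    ring
  calc ∑ j, J⁻¹ j i * MvPowerSeries.pderiv ℂ j (MvPolynomial.aeval φ q)
      = ∑ j, ∑ l, MvPolynomial.aeval φ (MvPolynomial.pderiv l q) * (J⁻¹ j i * J l j) := by
        apply Finset.sum_congr rfl
        intro j _
        rw [chain_rule, Finset.mul_sum]
        apply Finset.sum_congr rfl
        intro l _
        show J⁻¹ j i * (_ * J l j) = _
        ring
    _ = ∑ l, MvPolynomial.aeval φ (MvPolynomial.pderiv l q) * ∑ j, J⁻¹ j i * J l j := by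
        rw [Finset.sum_comm]
        apply Finset.sum_congr rfl
        intro l _
        rw [Finset.mul_sum]
    _ = MvPolynomial.aeval φ (MvPolynomial.pderiv i q) := by
        rw [Finset.sum_eq_single i]
        · rw [hJJ, if_pos rfl, mul_one]
        · intro l _ hl
          rw [hJJ, if_neg hl, mul_zero]
        · intro h
          exact absurd (Finset.mem_univ i) h

end Pool.Agent.ISO.R.H69
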